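import Mathlib
import Pool.Agent.W231.G.Fin

set_option autoImplicit false

/-!
# The truncated Vojta conjecture on `ℙ¹ × ℙ¹`: the degree of the exceptional set

`D` is any divisor on `ℙ¹ × ℙ¹` over a number field `K` which contains the fibres over `0`, `1`
and `∞` of both projections: in the affine coordinates `(x 0, x 1)` it is the closure of `F = 0`
together with the two fibres at infinity, so that its bidegree is `(deg_0 F + 1, deg_1 F + 1)`.
-/

namespace Pool.Agent.Results.MP_542436_nt.GridExceptional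

open NumberField IsDedekindDomain Polynomial

variable {K : Type} [Field K] [NumberField K]

/-- The local height of `D` at the prime `v` of the point `([x 0 : 1], [x 1 : 1])`. -/
noncomputable def localHeight (v : HeightOneSpectrum (𝓞 K)) (F : MvPolynomial (Fin 2) K)
    (x : Fin 2 → K) : ℝ :=
  -Real.log (FinitePlace.mk v (MvPolynomial.eval x F) /
    (max (FinitePlace.mk v (x 0)) 1 ^ (F.degreeOf 0 + 1) *
      max (FinitePlace.mk v (x 1)) 1 ^ (F.degreeOf 1 + 1)))

/-- The truncated counting function of `D`, a sum over all primes of `K`. -/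
noncomputable def counting (F : MvPolynomial (Fin 2) K) (x : Fin 2 → K) : ℝ :=
  ∑ᶠ v : HeightOneSpectrum (𝓞 K),
    min (Real.log (Ideal.absNorm v.asIdeal : ℝ)) (localHeight v F x)

/-- `H_D(α, β) = (q - 2) h_K(α) + (r - 2) h_K(β)` where `(q, r)` is the bidegree of `D` and `h_K`
is the logarithmic height relative to `K`. -/
noncomputable def heightD (F : MvPolynomial (Fin 2) K) (x : Fin 2 → K) : ℝ :=
  ∑ l, ((F.degreeOf l : ℝ) - 1) * Height.logHeight₁ (x l)

/-- Let `D` be a divisor on `ℙ¹ × ℙ¹` over `K` which contains the fibres over `0`, `1`, `∞` of both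
projections. Suppose that `H_D(x) - ε (h(x 0) + h(x 1)) - C ≤ N^(1)_D(x)` (`h = h_K / [K : ℚ]`) for
all `x ∈ K ^ 2` off `D` and off the zero set of a nonzero polynomial `G` over an extension `Ω` of
`K`. Let `k ≥ 1` and `(k + m) ε < [K : ℚ]`. Then `deg_j G + deg_j F` (`j = 0, 1`) is at least the
number of monic divisors of degree at most `m` of `X ^ k - 1` in `K[X]`; in particular it is at
least `2 ^ τ(k)` if `m ≥ k`, and at least `∑_{n ≤ m} binom(k, n)` if `K` contains a primitive
`k`-th root of unity. -/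
theorem result (K : Type) [Field K] [NumberField K] (F : MvPolynomial (Fin 2) K) (hF : F ≠ 0)
    (hdiv : MvPolynomial.X 0 * (MvPolynomial.X 0 - 1) *
      (MvPolynomial.X 1 * (MvPolynomial.X 1 - 1)) ∣ F)
    (Ω : Type) [Field Ω] [Algebra K Ω] (G : MvPolynomial (Fin 2) Ω) (hG : G ≠ 0) (ε C : ℝ)
    (hV : ∀ x : Fin 2 → K, MvPolynomial.eval x F ≠ 0 →
      MvPolynomial.eval (fun l => algebraMap K Ω (x l)) G ≠ 0 →
      heightD F x - ε * (∑ l, Height.logHeight₁ (x l) / Module.finrank ℚ K) - C ≤ counting F x)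
    (k m : ℕ) (hk : 1 ≤ k) (hε : (k + m) * ε < Module.finrank ℚ K) (j : Fin 2) :
    (∀ Ps : Finset K[X], (∀ P ∈ Ps, P.Monic ∧ P ∣ X ^ k - 1 ∧ P.natDegree ≤ m) →
      Ps.card ≤ G.degreeOf j + F.degreeOf j) ∧
    (k ≤ m → 2 ^ k.divisors.card ≤ G.degreeOf j + F.degreeOf j) ∧
    (∀ ζ : K, IsPrimitiveRoot ζ k →
      ∑ n ∈ Finset.range (m + 1), k.choose n ≤ G.degreeOf j + F.degreeOf j) := by
  classical
  obtain ⟨i, hij⟩ : ∃ i : Fin 2, i ≠ j := exists_ne j
  have key : ∀ Ps : Finset K[X], (∀ P ∈ Ps, P.eval 0 = 1 ∧ P ∣ 1 - X ^ k ∧ P.natDegree ≤ m) →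
      Ps.card ≤ G.degreeOf j + F.degreeOf j := by
    intro Ps hPs
    by_contra hlt
    push Not at hlt
    obtain ⟨x, h1, h2, h3⟩ := Pool.Agent.W231.G.main5 F hF hdiv G hG C hij hk hε Ps hPs hlt
    have h4 := hV x h1 h2
    exact absurd h3 (not_lt.2 h4)
  refine ⟨fun Ps hPs => ?_, fun hkm => ?_, fun ζ hζ => ?_⟩
  · obtain ⟨Ps', hc, h⟩ := Pool.Agent.W231.G.family_monic hk Ps hPs
    rw [← hc]
    exact key Ps' h
  · obtain ⟨Ps, hc, h⟩ := Pool.Agent.W231.G.family_int K hk hkm
    rw [← hc]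
    exact key Ps h
  · obtain ⟨Ps, hc, h⟩ := Pool.Agent.W231.G.family_root (m := m) hk hζ
    rw [← hc]
    exact key Ps h

end Pool.Agent.Results.MP_542436_nt.GridExceptional
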